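import Mathlib
import Pool.Agent.Y1.CT.Rel
import Pool.Agent.Y1.CT.TypeDefs
import Pool.Agent.Y137.MV.Defs

/-!
# Maximal angle rank for nondegenerate slope types
-/

set_option autoImplicit false
set_option linter.unusedSectionVars false
set_option linter.unusedVariables false

namespace Pool.Agent.Y1.TS

open NumberField Finset Module Polynomial Pool.Agent.H204R3.CM Pool.Agent.H977R3.CM
  Pool.Agent.TH170.CM Pool.Agent.TH170.MF Pool.Agent.TH170.FW Pool.Agent.H204R3.GP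
  Pool.Agent.TH170.GS Pool.Agent.TH170 Pool.Agent.Y1.CT Pool.Agent.Y137.MV

variable {p : ℕ} [Fact p.Prime] {ν : PadicAlgCl p ≃+* ℂ} {a : ℕ} {I : Type} [Fintype I]
  {K : I → Type} [∀ i, Field (K i)] [∀ i, NumberField (K i)] [∀ i, IsCMField (K i)]

theorem lg_prod {Y : Type*} (s : Finset Y) (w : Y → ℂ) (n : Y → ℤ) (h : ∀ y ∈ s, w y ≠ 0) :
    lg ν (∏ y ∈ s, w y ^ n y) = ∑ y ∈ s, (n y : ℝ) * lg ν (w y) := by
  classical
  induction s using Finset.induction_on with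
  | empty => simp [lg]
  | insert y s hy ih =>
    rw [Finset.prod_insert hy, Finset.sum_insert hy, lg_mul, lg_zpow, ih]
    · exact fun z hz => h z (Finset.mem_insert_of_mem hz)
    · exact zpow_ne_zero _ (h y (Finset.mem_insert_self _ _))
    · exact Finset.prod_ne_zero_iff.2 fun z hz => zpow_ne_zero _
        (h z (Finset.mem_insert_of_mem hz))

/-- Weil numbers of nondegenerate slope types have maximal angle rank. -/
theorem angle_types (hind : PairwiseIndep K) {M : ∀ i, (K i →+* ℂ) → ℤ}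
    (hM : ∀ i φ, M i (ComplexEmbedding.conjugate φ) = M i φ)
    {Φ : ∀ i, Set (K i →+* ℂ)} (hΦ : ∀ i, IsCMType (Φ i)) (hnd : ∀ i, Φ i ∉ degTypes (M i))
    {π : ∀ i, K i} (hπ : ∀ i, HasType ν a (M i) (Φ i) (π i)) :
    MaximalAngleRank (p ^ a) π := by
  classical
  intro r n hrel
  have hπ0 : ∀ i, π i ≠ 0 := by
    intro i h0
    have h1 := (hπ i).weil
    rw [h0, zero_mul] at h1
    exact pow_ne_zero a (Nat.cast_ne_zero.2 (Fact.out : p.Prime).ne_zero) h1.symm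
  choose κ hκ hsl using fun i => (hπ i).slopes
  let Y : Type := Σ i, (K i →+* ℂ)
  let inv : Y → Y := fun z => ⟨z.1, ComplexEmbedding.conjugate z.2⟩
  have hinv : ∀ y : Y, inv (inv y) = y := by
    rintro ⟨i, φ⟩
    simp only [inv, conj_conj]
  let ε : ∀ i, (K i →+* ℂ) → ℝ := fun i φ => ((CM.sgn (Φ i) φ * M i φ : ℤ) : ℝ)
  have hεc : ∀ i φ, ε i (ComplexEmbedding.conjugate φ) = - ε i φ := by
    intro i φ
    simp only [ε]
    rw [hM, (oddSign_sgn (hΦ i)).2]
    push_cast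
    ring
  let u : (ℂ ≃+* ℂ) → Y → ℝ := fun σ y => κ y.1 * ε y.1 ((σ : ℂ →+* ℂ).comp y.2)
  have hu : ∀ σ y, u σ (inv y) = - u σ y := by
    rintro σ ⟨i, φ⟩
    change κ i * ε i ((σ : ℂ →+* ℂ).comp (ComplexEmbedding.conjugate φ)) =
      -(κ i * ε i ((σ : ℂ →+* ℂ).comp φ))
    rw [QC.comp_conj, hεc]
    ring
  -- the slopes
  have hdev : ∀ (σ : ℂ ≃+* ℂ) (y : Y), 2 * lg ν (σ (y.2 (π y.1))) = -(a + u σ y) := by
    intro σ y
    have h4 := hsl y.1 ((σ : ℂ →+* ℂ).comp y.2)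
    have h6 : u σ y = 2 * (- Real.logb p ‖ν.symm (σ (y.2 (π y.1)))‖) - a := by
      change u σ y = 2 * (- Real.logb p ‖ν.symm (((σ : ℂ →+* ℂ).comp y.2) (π y.1))‖) - a
      rw [h4]
      simp only [u, ε, CM.sgn]
      split_ifs
      · push_cast
        ring
      · push_cast
        ring
    rw [h6]
    unfold lg
    ring
  -- the relation
  have hlog : ∀ σ : ℂ ≃+* ℂ, ∑ y : Y, (n y : ℝ) * u σ y = 2 * (r * a) - a * ∑ y : Y, (n y : ℝ) := by
    intro σ
    have h1 := congrArg (fun x => lg ν (σ x)) hrel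
    simp only [map_prod, map_zpow₀, lg_zpow] at h1
    rw [lg_prod _ _ _ (fun y _ => (_root_.map_ne_zero σ).2 ((_root_.map_ne_zero _).2 (hπ0 _)))] at h1
    have h2 : lg ν (σ (((p ^ a : ℕ) : ℂ))) = -a := by
      rw [map_natCast]
      push_cast
      rw [lg_pow, lg_p]
      ring
    rw [h2] at h1
    have h3 : ∑ y : Y, (n y : ℝ) * u σ y =
        ∑ y : Y, (-(2 * ((n y : ℝ) * lg ν (σ (y.2 (π y.1))))) - a * (n y : ℝ)) := by
      refine sum_congr rfl fun y _ => ?_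
      have := hdev σ y
      have h4 : u σ y = -(2 * lg ν (σ (y.2 (π y.1)))) - a := by linarith
      rw [h4]
      ring
    rw [h3, Finset.sum_sub_distrib, Finset.sum_neg_distrib, ← Finset.mul_sum, ← Finset.mul_sum, h1]
    ring
  have hc0 : 2 * ((r : ℝ) * a) - a * ∑ y : Y, (n y : ℝ) = 0 := by
    have h1 := hlog (RingEquiv.refl ℂ)
    have h2 := hlog (starRingAut : ℂ ≃+* ℂ)
    have h3 : ∀ y : Y, u (starRingAut : ℂ ≃+* ℂ) y = - u (RingEquiv.refl ℂ) y := by
      rintro ⟨i, φ⟩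
      change κ i * ε i (ComplexEmbedding.conjugate φ) = -(κ i * ε i φ)
      rw [hεc]
      ring
    rw [← h1] at h2
    simp only [h3, mul_neg, Finset.sum_neg_distrib] at h2
    linarith
  let cc : ∀ i, (K i →+* ℂ) → ℝ := fun i φ => κ i * ((n ⟨i, φ⟩ : ℝ) - n (inv ⟨i, φ⟩))
  have hF : ∀ σ : ℂ ≃+* ℂ, ∑ i, ∑ φ : K i →+* ℂ, cc i φ *
      ((CM.sgn (Φ i) ((σ : ℂ →+* ℂ).comp φ) * M i ((σ : ℂ →+* ℂ).comp φ) : ℤ) : ℝ) = 0 := by
    intro σ
    have h1 : ∑ i, ∑ φ : K i →+* ℂ, cc i φ *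
        ((CM.sgn (Φ i) ((σ : ℂ →+* ℂ).comp φ) * M i ((σ : ℂ →+* ℂ).comp φ) : ℤ) : ℝ) =
        ∑ y : Y, ((n y : ℝ) - n (inv y)) * u σ y := by
      rw [← Finset.univ_sigma_univ, Finset.sum_sigma]
      refine sum_congr rfl fun i _ => sum_congr rfl fun φ _ => ?_
      simp only [cc, u, ε]
      ring
    have h2 : ∑ y : Y, (n (inv y) : ℝ) * u σ y = ∑ y : Y, -((n y : ℝ) * u σ y) := by
      refine Finset.sum_nbij' inv inv (fun _ _ => Finset.mem_univ _)
        (fun _ _ => Finset.mem_univ _) (fun y _ => hinv y) (fun y _ => hinv y) (fun y _ => ?_)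
      rw [hu]
      ring
    rw [h1]
    simp only [sub_mul, Finset.sum_sub_distrib]
    rw [h2, Finset.sum_neg_distrib, hlog, hc0]
    ring
  intro i φ
  have h0 := trivial_real hind hM hΦ hnd cc (fun i φ => by
    simp only [cc, inv, conj_conj]
    ring) hF i φ
  have h1 := (mul_eq_zero.1 h0).resolve_left (hκ i)
  have h2 := sub_eq_zero.1 h1
  exact_mod_cast h2

end Pool.Agent.Y1.TS
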