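import Mathlib
import Pool.Agent.Y1.CT.TypeDefs
import Pool.Agent.Y1.CT.UnrelDefs
import Pool.Agent.Y137.SL.Defs

/-!
# Abelian varieties over finitely generated fields with a Frobenius element of a given slope type,
and arbitrary smooth varieties: definitions
-/

set_option autoImplicit false

namespace Pool.Agent.Y1.TS

open NumberField Module Pool.Agent.Y137.MV Pool.Agent.Y137.SL Pool.Agent.Y1.CT

/-- The Tate classes on the products `A ^ n × U` are generated by those on `A ^ n` of degree two and
those on `U`, whenever `A` has a Frobenius element `γ` at a place with `p ^ a` elements in the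
residue field with the characteristic polynomial `∏ i, minpoly (π i)` and the eigenvalues of `γ` on the
cohomology of `U` are roots of a rational polynomial all of whose roots are unrelated to the
fields `K i`. -/
def TateClassesSplit {p : ℕ} [Fact p.Prime] (a : ℕ) {I : Type} [Fintype I] (K : I → Type)
    [∀ i, Field (K i)] [∀ i, NumberField (K i)] [∀ i, IsCMField (K i)] (π : ∀ i, K i) : Prop :=
  ∀ (k : Type) [Field k] [CharZero k] (V : Type) [AddCommGroup V] [Module k V]
    [FiniteDimensional k V] (M : Type) [AddCommGroup M] [Module k M] [FiniteDimensional k M]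
    (Γ : Type) [Group Γ] (ρ : Representation k Γ V) (τ : Representation k Γ M) (χ : Γ →* k)
    (γ : Γ), IsPolarised ρ χ γ p a π →
    ∀ f : Polynomial ℚ, f ≠ 0 → Polynomial.aeval (τ γ) (f.map (algebraMap ℚ k)) = 0 →
    (∀ α : ℂ, Polynomial.aeval α f = 0 → ∀ i, UnrelatedTo (K i) α) → ClassesSplit ρ χ τ

/-- A property `P a π` of families of Weil numbers holds for all Weil numbers `π i` for
`p ^ a` (any `a > 0`) which generate the fields `K i` and have the slope types `Φ i`, with the
weights `M i`. -/
def ForAllWeil {p : ℕ} [Fact p.Prime] (ν : PadicAlgCl p ≃+* ℂ) {I : Type}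
    (K : I → Type) [∀ i, Field (K i)] [∀ i, NumberField (K i)] [∀ i, IsCMField (K i)]
    (M : ∀ i, (K i →+* ℂ) → ℤ) (P : ℕ → (∀ i, K i) → Prop) (Φ : ∀ i, Set (K i →+* ℂ)) : Prop :=
  ∀ (a : ℕ) (π : ∀ i, K i), 0 < a → (∀ i, CT.HasType ν a (M i) (Φ i) (π i)) → P a π

end Pool.Agent.Y1.TS
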