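import Mathlib
import Pool.Agent.Y1.TS.Defs
import Pool.Agent.Y1.TS.Angle
import Pool.Agent.Y137.MV.Final

/-!
# Eigenvalues unrelated to the fields, and the splitting of the classes
-/

set_option autoImplicit false
set_option linter.unusedSectionVars false
set_option linter.unusedVariables false

namespace Pool.Agent.Y1.TS

open NumberField Module TensorProduct IntermediateField
open Pool.Agent.H204R3.CM Pool.Agent.H204R3.SP Pool.Agent.H204R3.GP Pool.Agent.Y137.MV
  Pool.Agent.Y137.SL Pool.Agent.Y1.CT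

/-- The condition on the eigenvalues, for one field. -/
theorem forces_unrelated {q : ℕ} {ι : Type} [Fintype ι] {F : ι → Type}
    [∀ i, Field (F i)] [∀ i, NumberField (F i)] [∀ i, IsCMField (F i)] {π : ∀ i, F i}
    {L : Type*} [Field L] [NumberField L] [IsGalois ℚ L] (j : L →+* ℂ)
    (h : ∀ i, ∀ ψ : F i →+* ℂ, ∃ φ : F i →+* L, j.comp φ = ψ)
    (hπ0 : ∀ i, π i ≠ 0) (hang : MaximalAngleRank q π) (β : L) (i : ι)
    (hf : UnrelatedTo (F i) (j β)) :
    Forces π β i := by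
  classical
  intro T N I hN hβN φ
  let J : (Σ i, (F i →+* L)) → Σ i, (F i →+* ℂ) := fun x => ⟨x.1, j.comp x.2⟩
  have hJ : Function.Injective J := by
    rintro ⟨a, φ⟩ ⟨b, ψ⟩ h
    simp only [J, Sigma.mk.injEq] at h
    obtain ⟨rfl, h⟩ := h
    rw [H194R3.CM.comp_injective j (eq_of_heq h)]
  let cnt : (Σ i, (F i →+* ℂ)) → ℤ := fun x =>
    ((Finset.univ.filter (fun l => J (I l) = x)).card : ℤ)
  let cj : (Σ i, (F i →+* ℂ)) → (Σ i, (F i →+* ℂ)) := fun x =>
    ⟨x.1, ComplexEmbedding.conjugate x.2⟩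
  let n : (F i →+* ℂ) → ℚ := fun ψ =>
    (cnt ⟨i, ψ⟩ : ℚ) - (cnt ⟨i, ComplexEmbedding.conjugate ψ⟩ : ℚ)
  have hodd : ∀ φ, n (ComplexEmbedding.conjugate φ) = - n φ := by
    intro ψ
    simp only [n]
    have h1 : ComplexEmbedding.conjugate (ComplexEmbedding.conjugate ψ) = ψ := by
      ext x
      simp [ComplexEmbedding.conjugate_coe_eq]
    rw [h1]
    ring
  -- a family of embeddings gives a product of powers
  have hprod : ∀ (I' : Fin T → (Σ i, (F i →+* ℂ))) (M : ℕ),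
      ∏ l, ((I' l).2 (π (I' l).1)) ^ M = ∏ x : (Σ i, (F i →+* ℂ)), (x.2 (π x.1)) ^
        ((M : ℤ) * ((Finset.univ.filter (fun l => I' l = x)).card : ℤ)) := by
    intro I' M
    have h2 : ∀ x : Σ i, (F i →+* ℂ), (x.2 (π x.1)) ^
        ((M : ℤ) * ((Finset.univ.filter (fun l => I' l = x)).card : ℤ)) =
        ∏ l ∈ Finset.univ.filter (fun l => I' l = x), ((I' l).2 (π (I' l).1)) ^ M := by
      intro x
      have h3 : ∀ l ∈ Finset.univ.filter (fun l => I' l = x),
          ((I' l).2 (π (I' l).1)) ^ M = (x.2 (π x.1)) ^ M := by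
        intro l hl
        rw [(Finset.mem_filter.1 hl).2]
      rw [Finset.prod_congr rfl h3, Finset.prod_const, ← pow_mul]
      rw [← Nat.cast_mul, zpow_natCast]
    rw [Finset.prod_congr rfl (fun x _ => h2 x)]
    rw [Finset.prod_fiberwise (s := Finset.univ) (g := fun l => I' l)
      (f := fun l => ((I' l).2 (π (I' l).1)) ^ M)]
  have hinv : ∀ τ : ℂ ≃+* ℂ, (∃ m : ℕ, 0 < m ∧ τ ((j β) ^ m) = (j β) ^ m) →
      ∀ ψ : F i →+* ℂ, n ((τ : ℂ →+* ℂ).comp ψ) = n ψ := by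
    rintro τ ⟨m, hm, hτ⟩ ψ
    have hβ : (j β) ^ (N * m) = ∏ l, ((J (I l)).2 (π (J (I l)).1)) ^ (N * m) := by
      have h1 := congrArg (fun x => (j x) ^ m) hβN
      simp only [map_pow, map_prod, ← Finset.prod_pow, ← pow_mul] at h1
      exact h1
    let I' : Fin T → (Σ i, (F i →+* ℂ)) := fun l => ⟨(J (I l)).1, (τ : ℂ →+* ℂ).comp (J (I l)).2⟩
    have hβ2 : (j β) ^ (N * m) = ∏ l, ((I' l).2 (π (I' l).1)) ^ (N * m) := by
      have h1 := congrArg τ hβ
      have h2 : τ ((j β) ^ (N * m)) = (j β) ^ (N * m) := by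
        rw [mul_comm, pow_mul, map_pow, hτ]
      rw [h2, map_prod] at h1
      rw [h1]
      refine Finset.prod_congr rfl fun l _ => ?_
      rw [map_pow]
      rfl
    have hval : ∀ x : (Σ i, (F i →+* ℂ)), x.2 (π x.1) ≠ 0 := fun x =>
      (_root_.map_ne_zero _).2 (hπ0 _)
    rw [hprod] at hβ hβ2
    have hβ0 : (j β) ^ (N * m) ≠ 0 := by
      rw [hβ]
      exact Finset.prod_ne_zero_iff.2 fun x _ => zpow_ne_zero _ (hval x)
    have hrel : ∏ x : (Σ i, (F i →+* ℂ)), (x.2 (π x.1)) ^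
        (((N * m : ℕ) : ℤ) * ((Finset.univ.filter (fun l => I' l = x)).card : ℤ) -
          ((N * m : ℕ) : ℤ) * cnt x) = (q : ℂ) ^ (0 : ℤ) := by
      rw [zpow_zero]
      have h1 : ∀ x : (Σ i, (F i →+* ℂ)), (x.2 (π x.1)) ^
          (((N * m : ℕ) : ℤ) * ((Finset.univ.filter (fun l => I' l = x)).card : ℤ) -
            ((N * m : ℕ) : ℤ) * cnt x) =
          (x.2 (π x.1)) ^ (((N * m : ℕ) : ℤ) *
            ((Finset.univ.filter (fun l => I' l = x)).card : ℤ)) /
          (x.2 (π x.1)) ^ (((N * m : ℕ) : ℤ) * cnt x) := fun x => zpow_sub₀ (hval x) _ _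
      rw [Finset.prod_congr rfl (fun x _ => h1 x), Finset.prod_div_distrib, ← hβ2]
      simp only [cnt]
      rw [← hβ]
      exact div_self hβ0
    have hNm : ((N * m : ℕ) : ℤ) ≠ 0 := by
      exact_mod_cast (Nat.mul_pos hN hm).ne'
    have h2 : ((Finset.univ.filter (fun l => I' l = ⟨i, (τ : ℂ →+* ℂ).comp ψ⟩)).card : ℤ) -
        cnt ⟨i, (τ : ℂ →+* ℂ).comp ψ⟩ =
        ((Finset.univ.filter (fun l => I' l =
          ⟨i, ComplexEmbedding.conjugate ((τ : ℂ →+* ℂ).comp ψ)⟩)).card : ℤ) -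
        cnt ⟨i, ComplexEmbedding.conjugate ((τ : ℂ →+* ℂ).comp ψ)⟩ := by
      have h3 := hang 0 _ hrel i ((τ : ℂ →+* ℂ).comp ψ)
      simp only [← mul_sub] at h3
      exact mul_left_cancel₀ hNm h3
    have hτinj : ∀ (x : Σ i, (F i →+* ℂ)) (θ : F i →+* ℂ),
        ((⟨x.1, (τ : ℂ →+* ℂ).comp x.2⟩ : Σ i, (F i →+* ℂ)) = ⟨i, (τ : ℂ →+* ℂ).comp θ⟩) ↔
          x = ⟨i, θ⟩ := by
      rintro ⟨a, φ'⟩ θ
      constructor
      · intro h3
        simp only [Sigma.mk.injEq] at h3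
        obtain ⟨rfl, h3⟩ := h3
        have h4 := eq_of_heq h3
        have h5 : φ' = θ := by
          ext z
          have h6 := RingHom.congr_fun h4 z
          exact τ.injective h6
        rw [h5]
      · intro h3
        simp only [Sigma.mk.injEq] at h3
        obtain ⟨rfl, h3⟩ := h3
        rw [eq_of_heq h3]
    have h3 : ((Finset.univ.filter (fun l => I' l = ⟨i, (τ : ℂ →+* ℂ).comp ψ⟩)).card : ℤ) =
        cnt ⟨i, ψ⟩ := by
      simp only [cnt, I']
      congr 2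
      ext l
      simp only [Finset.mem_filter, Finset.mem_univ, true_and]
      exact hτinj (J (I l)) ψ
    have hcomm : ComplexEmbedding.conjugate ((τ : ℂ →+* ℂ).comp ψ) =
        (τ : ℂ →+* ℂ).comp (ComplexEmbedding.conjugate ψ) :=
      (Pool.Agent.TH170.QC.comp_conj τ ψ).symm
    have h4 : ((Finset.univ.filter (fun l => I' l =
        ⟨i, ComplexEmbedding.conjugate ((τ : ℂ →+* ℂ).comp ψ)⟩)).card : ℤ) =
        cnt ⟨i, ComplexEmbedding.conjugate ψ⟩ := by
      rw [hcomm]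
      simp only [cnt, I']
      congr 2
      ext l
      simp only [Finset.mem_filter, Finset.mem_univ, true_and]
      exact hτinj (J (I l)) (ComplexEmbedding.conjugate ψ)
    rw [h3, h4] at h2
    simp only [n]
    have h5 : ((cnt ⟨i, ψ⟩ - cnt ⟨i, (τ : ℂ →+* ℂ).comp ψ⟩ : ℤ) : ℚ) =
      ((cnt ⟨i, ComplexEmbedding.conjugate ψ⟩ -
        cnt ⟨i, ComplexEmbedding.conjugate ((τ : ℂ →+* ℂ).comp ψ)⟩ : ℤ) : ℚ) := by rw [h2]
    push_cast at h5
    linarith
  have hn := hf n hodd hinv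
  have h9 : n (j.comp φ) = 0 := by rw [hn]; rfl
  simp only [n, cnt] at h9
  have h10 := sub_eq_zero.1 h9
  have h4 : (Finset.univ.filter (fun l => I l = ⟨i, φ⟩)).card =
      (Finset.univ.filter (fun l => J (I l) = ⟨i, j.comp φ⟩)).card := by
    congr 1
    ext l
    simp only [Finset.mem_filter, Finset.mem_univ, true_and]
    exact ⟨fun h => by rw [h], fun h => hJ h⟩
  have h5 : (Finset.univ.filter (fun l => I l = bar ⟨i, φ⟩)).card =
      (Finset.univ.filter (fun l => J (I l) =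
        ⟨i, ComplexEmbedding.conjugate (j.comp φ)⟩)).card := by
    congr 1
    ext l
    simp only [Finset.mem_filter, Finset.mem_univ, true_and]
    have h6 : J (bar ⟨i, φ⟩) = ⟨i, ComplexEmbedding.conjugate (j.comp φ)⟩ := by
      simp only [J, bar]
      rw [comp_cbar]
    rw [← h6]
    exact ⟨fun h => by rw [h], fun h => hJ h⟩
  rw [h4, h5]
  exact_mod_cast h10

end Pool.Agent.Y1.TS
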