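import Mathlib
import Pool.Agent.Y1.TS.Split
import Pool.Agent.Y1.KN.All

/-!
# The bound for families of slope types, for abelian varieties over finitely generated fields
-/

set_option autoImplicit false
set_option linter.unusedSectionVars false
set_option linter.unusedVariables false

namespace Pool.Agent.Y1.TS

open NumberField Module IntermediateField Pool.Agent.H204R3.CM Pool.Agent.H977R3.CM
  Pool.Agent.TH170 Pool.Agent.TH170.FW Pool.Agent.Y1.KN Pool.Agent.Y137.MV Pool.Agent.Y137.SL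
  Pool.Agent.Y1.CT

/-- The bound. -/
theorem ncard_of_angle :
    ∃ C : ℝ, 0 ≤ C ∧ ∀ (p : ℕ) [Fact p.Prime] (ν : PadicAlgCl p ≃+* ℂ) (I : Type) [Fintype I]
      (K : I → Type) [∀ i, Field (K i)] [∀ i, NumberField (K i)] [∀ i, IsCMField (K i)]
      (M : ∀ i, (K i →+* ℂ) → ℤ) (n g q : I → ℕ), PairwiseIndep K →
      (∀ i φ, M i (ComplexEmbedding.conjugate φ) = M i φ) → (∀ i, n i ≠ 0) →
      (∀ i φ, M i φ ∣ (n i : ℤ)) → (∀ i, finrank ℚ (K i) = 2 * g i) →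
      (∀ i, q i ∣ g i ∧ (q i = 1 ∨ (q i).Prime)) →
      ∀ P : ℕ → (∀ i, K i) → Prop,
      (∀ (a : ℕ) (π : ∀ i, K i), 0 < a → (∀ i, ℚ⟮π i⟯ = ⊤) →
        (∀ i, π i * IsCMField.complexConj (K i) (π i) = (p : K i) ^ a) →
        MaximalAngleRank (p ^ a) π → P a π) →
      (({Φ : ∀ i, Set (K i →+* ℂ) | (∀ i, IsCMType (Φ i)) ∧
        ¬ ForAllWeil ν K M P Φ}.ncard : ℕ) : ℝ) ≤
        2 ^ (∑ i, g i) * ∑ i, C * (n i : ℝ) ^ 2 * rate (K i) (g i) (q i) := by
  obtain ⟨C, hC0, hC⟩ := families_holds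
  refine ⟨C, hC0, ?_⟩
  intro p _ ν I _ K _ _ _ M n g q hind hM hn hMn hg hq P hP
  refine hC I K M n g q hM hn hMn hg hq (ForAllWeil ν K M P) fun Φ hΦ hnd => ?_
  intro a π ha hπ
  exact hP a π ha (fun i => (hπ i).gen) (fun i => (hπ i).weil) (angle_types hind hM hΦ hnd hπ)

end Pool.Agent.Y1.TS
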